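import Mathlib
import Pool.Agent.Q182.NatHL

/-!
# The ergodic Lebesgue differentiation theorem fails in `L¹`
-/

set_option autoImplicit false

open Set Filter Topology MeasureTheory Metric
open scoped ENNReal

namespace Pool.Agent.Results.MP_135240_an.DivergenceL1

open Pool.Agent.Q182.NatHL

/-- The Hardy–Littlewood property: the centred maximal operator is of weak type (1,1). -/
def HLProp {X : Type*} [MetricSpace X] [MeasurableSpace X] (μ : Measure X) : Prop :=
  ∃ C : ℝ, 1 ≤ C ∧ ∀ f : X → ℝ, Integrable f μ → ∀ ε : ℝ, 0 < ε →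
    μ {x | ENNReal.ofReal ε ≤ ⨆ (r : ℝ) (_ : 0 < r),
      (∫⁻ y in ball x r, ‖f y‖ₑ ∂μ) / μ (ball x r)} ≤ ENNReal.ofReal (C * (∫ x, |f x| ∂μ) / ε)

/-- `U_{r,k} f(x)` -/
noncomputable def U {X : Type*} [MetricSpace X] [MeasurableSpace X] (μ : Measure X) (T : X → X)
    (f : X → ℝ) (r : ℝ) (k : ℕ) (x : X) : ℝ :=
  (μ.real (ball x r))⁻¹ * ∫ y in ball x r, (k : ℝ)⁻¹ * ∑ j ∈ Finset.range k, f (T^[j] y) ∂μ

/-! ### Combinatorics -/

lemma gfun {α : Type} [Fintype α] [DecidableEq α] (O : Finset α) (J : Finset ℕ) (t : ℕ → ℕ)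
    (h : O.card ≤ ∑ j ∈ J, t j) :
    ∃ g : α → ℕ, (∀ x ∈ O, g x ∈ J) ∧ ∀ j, (O.filter (fun x => g x = j)).card ≤ t j := by
  have hc : O.card ≤ (J.sigma fun j => Finset.range (t j)).card := by
    rw [Finset.card_sigma]; simpa using h
  obtain ⟨φ, hφ⟩ : ∃ φ : O → (J.sigma fun j => Finset.range (t j)), Function.Injective φ := by
    have : Fintype.card O ≤ Fintype.card (J.sigma fun j => Finset.range (t j)) := by
      simpa using hc
    obtain ⟨e⟩ := Function.Embedding.nonempty_of_card_le this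
    exact ⟨e, e.injective⟩
  refine ⟨fun x => if h : x ∈ O then (φ ⟨x, h⟩).1.1 else 0, ?_, ?_⟩
  · intro x hx
    simp only [dif_pos hx]
    exact (Finset.mem_sigma.1 (φ ⟨x, hx⟩).2).1
  · intro j
    have : (O.filter (fun x => (if h : x ∈ O then (φ ⟨x, h⟩).1.1 else 0) = j)).card ≤
        (Finset.range (t j)).card := by
      refine Finset.card_le_card_of_injOn
        (fun x => if h : x ∈ O then (φ ⟨x, h⟩).1.2 else 0) ?_ ?_
      · intro x hx
        rw [Finset.mem_coe, Finset.mem_filter] at hx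
        obtain ⟨hx1, hx2⟩ := hx
        rw [dif_pos hx1] at hx2
        simp only [dif_pos hx1]
        rw [← hx2]
        exact (Finset.mem_sigma.1 (φ ⟨x, hx1⟩).2).2
      · intro x hx y hy hxy
        rw [Finset.mem_coe, Finset.mem_filter] at hx hy
        obtain ⟨hx1, hx2⟩ := hx
        obtain ⟨hy1, hy2⟩ := hy
        rw [dif_pos hx1] at hx2
        rw [dif_pos hy1] at hy2
        simp only [dif_pos hx1, dif_pos hy1] at hxy
        have : φ ⟨x, hx1⟩ = φ ⟨y, hy1⟩ := by
          apply Subtype.ext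
          exact Sigma.ext (hx2.trans hy2.symm) (heq_of_eq hxy)
        exact congrArg Subtype.val (hφ this)
    simpa using this

lemma comb (D K B : ℕ) (hD : 1 ≤ D) (hB : 1 ≤ B) :
    ∃ (N : ℕ) (ℓ : ZMod (N + 1) → ℕ) (c : ℕ), c * D ≤ N + 1 ∧ (∀ x, K ≤ ℓ x) ∧
      (∀ x, B * (ℓ x + 1) * (Finset.univ.filter (fun y => ℓ y = ℓ x)).card ≤ c) ∧
      (∀ x, ℓ (-(ℓ x : ZMod (N + 1))) = ℓ x) := by
  -- choice of `M`
  obtain ⟨M, hM⟩ : ∃ M : ℕ, (B * D : ℝ) + ∑ i ∈ Finset.range K, 1 / ((i : ℝ) + 1) ≤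
      ∑ i ∈ Finset.range M, 1 / ((i : ℝ) + 1) :=
    (Real.tendsto_sum_range_one_div_nat_succ_atTop.eventually_ge_atTop _).exists
  have hBD : (1 : ℝ) ≤ B * D := by
    have h1 : 1 ≤ B * D := Nat.mul_pos hB hD
    exact_mod_cast h1
  have hKM : K < M := by
    by_contra h
    rw [not_lt] at h
    have : ∑ i ∈ Finset.range M, 1 / ((i : ℝ) + 1) ≤ ∑ i ∈ Finset.range K, 1 / ((i : ℝ) + 1) :=
      Finset.sum_le_sum_of_subset_of_nonneg (Finset.range_subset_range.2 h)
        (fun i _ _ => by positivity)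
    linarith
  set F := M.factorial with hF
  have hF1 : M ≤ F := Nat.self_le_factorial M
  have hF0 : 0 < F := Nat.factorial_pos M
  set n := D * (B * F) with hn
  have hn0 : 0 < n := Nat.mul_pos hD (Nat.mul_pos hB hF0)
  have hMn : M ≤ n := by
    calc M ≤ F := hF1
      _ = 1 * (1 * F) := by ring
      _ ≤ D * (B * F) := Nat.mul_le_mul hD (Nat.mul_le_mul hB le_rfl)
  set s : ℕ → ℕ := fun j => F / (j + 1) with hs
  have hdvd : ∀ j < M, (j + 1) ∣ F := fun j hj => Nat.dvd_factorial (Nat.succ_pos j) hj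
  have hs1 : ∀ j < M, 1 ≤ s j := fun j hj =>
    Nat.div_pos (Nat.le_of_dvd hF0 (hdvd j hj)) (Nat.succ_pos j)
  have hsum : n ≤ ∑ j ∈ Finset.Ico K M, s j := by
    have h1 : ∑ i ∈ Finset.Ico K M, 1 / ((i : ℝ) + 1) =
        ∑ i ∈ Finset.range M, 1 / ((i : ℝ) + 1) - ∑ i ∈ Finset.range K, 1 / ((i : ℝ) + 1) :=
      Finset.sum_Ico_eq_sub _ hKM.le
    have h2 : ((∑ j ∈ Finset.Ico K M, s j : ℕ) : ℝ) = F * ∑ i ∈ Finset.Ico K M, 1 / ((i : ℝ) + 1) := by
      rw [Nat.cast_sum, Finset.mul_sum]
      refine Finset.sum_congr rfl fun j hj => ?_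
      rw [Finset.mem_Ico] at hj
      simp only [hs]
      rw [Nat.cast_div (hdvd j hj.2) (by positivity)]
      push_cast
      ring
    have h3 : (n : ℝ) ≤ ((∑ j ∈ Finset.Ico K M, s j : ℕ) : ℝ) := by
      rw [h2, h1, hn]
      push_cast
      have h4 : (0 : ℝ) < F := by exact_mod_cast hF0
      have h5 : (B * D : ℝ) ≤ ∑ i ∈ Finset.range M, 1 / ((i : ℝ) + 1) -
          ∑ i ∈ Finset.range K, 1 / ((i : ℝ) + 1) := by linarith
      calc (D : ℝ) * (B * F) = F * (B * D) := by ring
        _ ≤ _ := mul_le_mul_of_nonneg_left h5 h4.le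
    exact_mod_cast h3
  obtain ⟨N, hN⟩ : ∃ N, n = N + 1 := ⟨n - 1, by omega⟩
  -- the anchors
  have hinj : ∀ j < M, ∀ j' < M, (-(j : ZMod (N + 1))) = -(j' : ZMod (N + 1)) → j = j' := by
    intro j hj j' hj' h
    rw [neg_inj] at h
    have h1 := congrArg ZMod.val h
    rwa [ZMod.val_natCast_of_lt (by omega), ZMod.val_natCast_of_lt (by omega)] at h1
  set Anc : Finset (ZMod (N + 1)) := (Finset.Ico K M).image (fun j : ℕ => -(j : ZMod (N + 1)))
    with hAnc
  have hAc : Anc.card = M - K := by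
    rw [hAnc, Finset.card_image_of_injOn]
    · simp
    · intro j hj j' hj' h
      rw [Finset.mem_coe, Finset.mem_Ico] at hj hj'
      exact hinj j hj.2 j' hj'.2 h
  have hO : (Finset.univ \ Anc).card ≤ ∑ j ∈ Finset.Ico K M, (s j - 1) := by
    have h1 : (Finset.univ \ Anc).card = n - (M - K) := by
      rw [Finset.card_sdiff_of_subset (Finset.subset_univ _), Finset.card_univ, ZMod.card, hAc, hN]
    have h2 : ∑ j ∈ Finset.Ico K M, s j = ∑ j ∈ Finset.Ico K M, (s j - 1) + (M - K) := by
      have : ∀ j ∈ Finset.Ico K M, s j = (s j - 1) + 1 := by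
        intro j hj
        rw [Finset.mem_Ico] at hj
        have := hs1 j hj.2
        omega
      conv_lhs => rw [Finset.sum_congr rfl this]
      rw [Finset.sum_add_distrib]
      simp
    rw [h1]
    omega
  obtain ⟨g, hg1, hg2⟩ := gfun (Finset.univ \ Anc) (Finset.Ico K M) (fun j => s j - 1) hO
  classical
  -- the labels
  set ℓ : ZMod (N + 1) → ℕ := fun x =>
    if x ∈ Anc then (-x).val else g x with hℓ
  have hℓanc : ∀ j ∈ Finset.Ico K M, ℓ (-(j : ZMod (N + 1))) = j := by
    intro j hj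
    have : (-(j : ZMod (N + 1))) ∈ Anc := Finset.mem_image_of_mem _ hj
    rw [Finset.mem_Ico] at hj
    simp only [hℓ]
    rw [if_pos this, neg_neg, ZMod.val_natCast_of_lt (by omega)]
  have hℓmem : ∀ x, ℓ x ∈ Finset.Ico K M := by
    intro x
    by_cases hx : x ∈ Anc
    · obtain ⟨j, hj, rfl⟩ := Finset.mem_image.1 hx
      rw [hℓanc j hj]; exact hj
    · simp only [hℓ]
      rw [if_neg hx]
      exact hg1 x (by simp [hx])
  have hfib : ∀ j ∈ Finset.Ico K M, (Finset.univ.filter (fun y => ℓ y = j)).card ≤ s j := by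
    intro j hj
    have h1 : Finset.univ.filter (fun y => ℓ y = j) ⊆
        insert (-(j : ZMod (N + 1))) ((Finset.univ \ Anc).filter (fun x => g x = j)) := by
      intro y hy
      rw [Finset.mem_filter] at hy
      rw [Finset.mem_insert]
      by_cases hyA : y ∈ Anc
      · left
        obtain ⟨j', hj', rfl⟩ := Finset.mem_image.1 hyA
        rw [hℓanc j' hj'] at hy
        rw [hy.2]
      · right
        rw [Finset.mem_filter]
        refine ⟨by simp [hyA], ?_⟩
        have := hy.2
        simp only [hℓ] at this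
        rwa [if_neg hyA] at this
    have h2 := (Finset.card_le_card h1).trans (Finset.card_insert_le _ _)
    have h3 := hg2 j
    rw [Finset.mem_Ico] at hj
    have h4 := hs1 j hj.2
    omega
  refine ⟨N, ℓ, B * F, ?_, ?_, ?_, ?_⟩
  · rw [← hN, hn, mul_comm]
  · intro x
    exact (Finset.mem_Ico.1 (hℓmem x)).1
  · intro x
    have h1 := hfib (ℓ x) (hℓmem x)
    have h2 := hdvd (ℓ x) (Finset.mem_Ico.1 (hℓmem x)).2
    calc B * (ℓ x + 1) * (Finset.univ.filter (fun y => ℓ y = ℓ x)).card
        ≤ B * (ℓ x + 1) * s (ℓ x) := Nat.mul_le_mul_left _ h1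
      _ = B * F := by
          simp only [hs]
          rw [mul_assoc, Nat.mul_div_cancel' h2]
  · intro x
    exact hℓanc _ (hℓmem x)

/-! ### The construction -/

noncomputable def N (i : ℕ) : ℕ := (comb (2 ^ i) i (i + 1) Nat.one_le_two_pow (Nat.succ_pos i)).choose

noncomputable def lab (i : ℕ) : ZMod (N i + 1) → ℕ :=
  (comb (2 ^ i) i (i + 1) Nat.one_le_two_pow (Nat.succ_pos i)).choose_spec.choose

noncomputable def c (i : ℕ) : ℕ :=
  (comb (2 ^ i) i (i + 1) Nat.one_le_two_pow (Nat.succ_pos i)).choose_spec.choose_spec.choose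

lemma spec (i : ℕ) : c i * 2 ^ i ≤ N i + 1 ∧ (∀ x, i ≤ lab i x) ∧
      (∀ x, (i + 1) * (lab i x + 1) * (Finset.univ.filter (fun y => lab i y = lab i x)).card ≤ c i) ∧
      (∀ x, lab i (-(lab i x : ZMod (N i + 1))) = lab i x) :=
  (comb (2 ^ i) i (i + 1) Nat.one_le_two_pow (Nat.succ_pos i)).choose_spec.choose_spec.choose_spec

/-- the uniform measure -/
noncomputable def u (n : ℕ) : Measure (ZMod (n + 1)) := ((n : ℝ≥0∞) + 1)⁻¹ • Measure.count

lemma u_finset (n : ℕ) (s : Finset (ZMod (n + 1))) : u n s = s.card / ((n : ℝ≥0∞) + 1) := by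
  unfold u
  rw [Measure.smul_apply, Measure.count_apply_finset, smul_eq_mul, mul_comm, div_eq_mul_inv]

instance (n : ℕ) : IsProbabilityMeasure (u n) := by
  constructor
  have := u_finset n Finset.univ
  rw [Finset.coe_univ] at this
  rw [this, Finset.card_univ, ZMod.card]
  push_cast
  exact ENNReal.div_self (by simp) (by simp)

lemma u_map (n : ℕ) : (u n).map (fun x => x + 1) = u n := by
  apply Measure.ext_of_singleton
  intro a
  rw [Measure.map_apply (measurable_of_finite _) (MeasurableSet.singleton a)]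
  have h1 : (fun x : ZMod (n + 1) => x + 1) ⁻¹' {a} = {a - 1} := by
    ext x
    simp only [mem_preimage, mem_singleton_iff]
    exact eq_sub_iff_add_eq.symm
  rw [h1]
  have h2 : ∀ b : ZMod (n + 1), u n {b} = 1 / ((n : ℝ≥0∞) + 1) := by
    intro b
    have := u_finset n {b}
    simpa using this
  rw [h2, h2]

/-- the product space -/
abbrev Ω := ∀ i : ℕ, ZMod (N i + 1)

noncomputable def ν : Measure Ω := Measure.infinitePi fun i => u (N i)

instance : IsProbabilityMeasure ν := by unfold ν; infer_instance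

noncomputable def S (x : Ω) : Ω := fun i => x i + 1

lemma S_meas : Measurable S :=
  measurable_pi_lambda _ fun i => (measurable_of_finite (fun a : ZMod (N i + 1) => a + 1)).comp
    (measurable_pi_apply i)

lemma S_mp : MeasurePreserving S ν ν := by
  refine ⟨S_meas, ?_⟩
  have h := Measure.infinitePi_map_pi (μ := fun i => u (N i))
    (f := fun i (a : ZMod (N i + 1)) => a + 1) (fun i => measurable_of_finite _)
  unfold ν
  have h2 : (fun x : Ω => fun i => x i + 1) = S := rfl
  rw [h2] at h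
  rw [h]
  congr 1
  funext i
  exact u_map (N i)

lemma S_iter (k : ℕ) (x : Ω) (i : ℕ) : (S^[k] x) i = x i + k := by
  induction k with
  | zero => simp
  | succ k ih =>
    rw [Function.iterate_succ_apply']
    show (S^[k] x) i + 1 = _
    rw [ih]
    push_cast
    ring

/-- the function with values in `[0,∞]` -/
noncomputable def G (x : Ω) : ℝ≥0∞ := ∑' i : ℕ, if x i = 0 then (c i : ℝ≥0∞) else 0

lemma G_term_meas (i : ℕ) : Measurable fun x : Ω => if x i = 0 then (c i : ℝ≥0∞) else 0 :=
  (measurable_of_finite (fun a : ZMod (N i + 1) => if a = 0 then (c i : ℝ≥0∞) else 0)).comp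
    (measurable_pi_apply i)

lemma G_meas : Measurable G := Measurable.tsum fun i => G_term_meas i

lemma G_int : ∫⁻ x, G x ∂ν ≠ ∞ := by
  unfold G
  rw [lintegral_tsum fun i => (G_term_meas i).aemeasurable]
  have h1 : ∀ i : ℕ, ∫⁻ x : Ω, (if x i = 0 then (c i : ℝ≥0∞) else 0) ∂ν ≤ (2⁻¹ : ℝ≥0∞) ^ i := by
    intro i
    have e1 : ∫⁻ x : Ω, (if x i = 0 then (c i : ℝ≥0∞) else 0) ∂ν =
        ∫⁻ a : ZMod (N i + 1), (if a = 0 then (c i : ℝ≥0∞) else 0) ∂(u (N i)) := by
      have h := Measure.infinitePi_map_eval (fun i => u (N i)) i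
      rw [← h, lintegral_map (measurable_of_finite _) (measurable_pi_apply i)]
      rfl
    rw [e1]
    have e2 : (fun a : ZMod (N i + 1) => (if a = 0 then (c i : ℝ≥0∞) else 0)) =
        ({0} : Set (ZMod (N i + 1))).indicator fun _ => (c i : ℝ≥0∞) := by
      funext a
      by_cases h : a = 0 <;> simp [h]
    rw [e2, lintegral_indicator_const (MeasurableSet.singleton _)]
    have h2 := u_finset (N i) {0}
    rw [Finset.coe_singleton, Finset.card_singleton] at h2
    rw [h2]
    have h3 := (spec i).1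
    have h4 : (c i : ℝ≥0∞) * 2 ^ i ≤ (N i : ℝ≥0∞) + 1 := by exact_mod_cast h3
    rw [Nat.cast_one, one_div, ← div_eq_mul_inv]
    apply ENNReal.div_le_of_le_mul
    have h5 : (2 : ℝ≥0∞) ^ i * 2⁻¹ ^ i = 1 := by
      rw [← mul_pow, ENNReal.mul_inv_cancel (by norm_num) (by norm_num), one_pow]
    calc (c i : ℝ≥0∞) = (c i * 2 ^ i) * 2⁻¹ ^ i := by rw [mul_assoc, h5, mul_one]
      _ ≤ ((N i : ℝ≥0∞) + 1) * 2⁻¹ ^ i := by gcongr
      _ = _ := mul_comm _ _
  refine ne_top_of_le_ne_top ?_ (ENNReal.tsum_le_tsum h1)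
  rw [ENNReal.tsum_geometric]
  simp

/-- the function -/
noncomputable def f (x : Ω) : ℝ := (G x).toReal

lemma f_nonneg (x : Ω) : 0 ≤ f x := ENNReal.toReal_nonneg

lemma f_int : Integrable f ν := integrable_toReal_of_lintegral_ne_top G_meas.aemeasurable G_int

lemma G_fin : ∀ᵐ x ∂ν, G x < ∞ := ae_lt_top G_meas G_int

lemma f_ge : ∀ᵐ x ∂ν, ∀ i, x i = 0 → (c i : ℝ) ≤ f x := by
  filter_upwards [G_fin] with x hx i hi
  have h1 : (c i : ℝ≥0∞) ≤ G x := by
    have := ENNReal.le_tsum (f := fun i : ℕ => if x i = 0 then (c i : ℝ≥0∞) else 0) i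
    rwa [if_pos hi] at this
  have h2 := ENNReal.toReal_mono hx.ne h1
  rw [ENNReal.toReal_natCast] at h2
  exact h2

/-- ergodic averages -/
noncomputable def Av (k : ℕ) (x : Ω) : ℝ := (k : ℝ)⁻¹ * ∑ j ∈ Finset.range k, f (S^[j] x)

lemma Av_int (k : ℕ) : Integrable (Av k) ν :=
  (integrable_finsetSum _ fun j _ =>
    (S_mp.iterate j).integrable_comp_of_integrable f_int).const_mul _

/-- cells -/
def cell (i : ℕ) (x : Ω) : Set Ω := {y | (∀ l < i, y l = x l) ∧ lab i (y i) = lab i (x i)}

/-- anchors -/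
def anc (i : ℕ) (x : Ω) : Set Ω :=
  {y | (∀ l < i, y l = x l) ∧ y i = -(lab i (x i) : ZMod (N i + 1))}

lemma box_eq (i : ℕ) (x : Ω) (t : ∀ l, Set (ZMod (N l + 1))) :
    {y : Ω | (∀ l < i, y l = x l) ∧ y i ∈ t i} =
      ((Finset.range (i + 1) : Finset ℕ) : Set ℕ).pi (fun l => if l < i then {x l} else t l) := by
  ext y
  simp only [mem_ofPred_eq, Set.mem_pi, Finset.mem_coe, Finset.mem_range]
  constructor
  · rintro ⟨h1, h2⟩ l hl
    split_ifs with h
    · exact h1 l h
    · have : l = i := by omega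
      subst this
      exact h2
  · intro h
    refine ⟨fun l hl => ?_, ?_⟩
    · have := h l (by omega)
      rwa [if_pos hl] at this
    · have := h i (by omega)
      rwa [if_neg (lt_irrefl i)] at this

lemma box_measure (i : ℕ) (x : Ω) (t : ∀ l, Set (ZMod (N l + 1))) :
    ν {y : Ω | (∀ l < i, y l = x l) ∧ y i ∈ t i} =
      (∏ l ∈ Finset.range i, u (N l) {x l}) * u (N i) (t i) := by
  rw [box_eq, ν, Measure.infinitePi_pi _ (fun _ _ => MeasurableSet.of_discrete),
    Finset.prod_range_succ, if_neg (lt_irrefl i)]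
  congr 1
  refine Finset.prod_congr rfl fun l hl => ?_
  rw [Finset.mem_range] at hl
  rw [if_pos hl]

lemma box_meas (i : ℕ) (x : Ω) (t : ∀ l, Set (ZMod (N l + 1))) :
    MeasurableSet {y : Ω | (∀ l < i, y l = x l) ∧ y i ∈ t i} := by
  rw [box_eq]
  exact MeasurableSet.pi (Finset.countable_toSet _) fun _ _ => MeasurableSet.of_discrete

/-- the constant -/
noncomputable def pc (i : ℕ) (x : Ω) : ℝ := (∏ l ∈ Finset.range i, u (N l) {x l}).toReal / ((N i : ℝ) + 1)

lemma pc_pos (i : ℕ) (x : Ω) : 0 < pc i x := by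
  unfold pc
  apply div_pos _ (by positivity)
  rw [ENNReal.toReal_prod]
  refine Finset.prod_pos fun l _ => ?_
  have h := u_finset (N l) {x l}
  rw [Finset.coe_singleton, Finset.card_singleton] at h
  rw [h]
  apply ENNReal.toReal_pos
  · simp
  · exact ENNReal.div_ne_top (by simp) (by simp)

lemma cell_measure (i : ℕ) (x : Ω) :
    ν.real (cell i x) = pc i x * (Finset.univ.filter (fun a => lab i a = lab i (x i))).card := by
  have h := box_measure i x (fun l => {a | lab l a = lab l (x l)})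
  have h1 : u (N i) {a | lab i a = lab i (x i)} =
      (Finset.univ.filter (fun a => lab i a = lab i (x i))).card / ((N i : ℝ≥0∞) + 1) := by
    rw [← u_finset]
    congr 1
    ext a; simp
  rw [measureReal_def]
  have h2 : cell i x = {y : Ω | (∀ l < i, y l = x l) ∧ y i ∈ (fun l => {a | lab l a = lab l (x l)} :
      ∀ l, Set (ZMod (N l + 1))) i} := rfl
  rw [h2, h]
  show ((∏ l ∈ Finset.range i, u (N l) {x l}) * u (N i) {a | lab i a = lab i (x i)}).toReal = _
  rw [h1, ENNReal.toReal_mul, pc, ENNReal.toReal_div, ENNReal.toReal_add (by simp) (by simp)]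
  simp only [ENNReal.toReal_natCast, ENNReal.toReal_one]
  ring

lemma anc_measure (i : ℕ) (x : Ω) : ν.real (anc i x) = pc i x := by
  have h := box_measure i x (fun l => {-(lab l (x l) : ZMod (N l + 1))})
  have h1 : u (N i) {-(lab i (x i) : ZMod (N i + 1))} = 1 / ((N i : ℝ≥0∞) + 1) := by
    have := u_finset (N i) {-(lab i (x i) : ZMod (N i + 1))}
    simpa using this
  rw [measureReal_def]
  have h2 : anc i x = {y : Ω | (∀ l < i, y l = x l) ∧ y i ∈ (fun l => {-(lab l (x l) : ZMod (N l + 1))} :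
      ∀ l, Set (ZMod (N l + 1))) i} := rfl
  rw [h2, h]
  show ((∏ l ∈ Finset.range i, u (N l) {x l}) * u (N i) {-(lab i (x i) : ZMod (N i + 1))}).toReal = _
  rw [h1, ENNReal.toReal_mul, pc, ENNReal.toReal_div, ENNReal.toReal_add (by simp) (by simp)]
  simp only [ENNReal.toReal_natCast, ENNReal.toReal_one]
  ring

lemma anc_meas (i : ℕ) (x : Ω) : MeasurableSet (anc i x) :=
  box_meas i x (fun l => {-(lab l (x l) : ZMod (N l + 1))})

lemma cell_meas (i : ℕ) (x : Ω) : MeasurableSet (cell i x) :=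
  box_meas i x (fun l => {a | lab l a = lab l (x l)})

lemma anc_sub (i : ℕ) (x : Ω) : anc i x ⊆ cell i x := by
  rintro y ⟨h1, h2⟩
  refine ⟨h1, ?_⟩
  rw [h2]
  exact (spec i).2.2.2 (x i)

/-- the main estimate -/
lemma main_est (i : ℕ) (x : Ω) :
    ((i : ℝ) + 1) * ν.real (cell i x) ≤ ∫ y in cell i x, Av (lab i (x i) + 1) y ∂ν := by
  set j := lab i (x i) with hj
  set κ : ℝ := ((j + 1 : ℕ) : ℝ)⁻¹ with hκ
  have hκ0 : 0 < κ := by positivity
  have hae : ∀ᵐ y ∂ν, (anc i x).indicator (fun _ => κ * c i) y ≤ Av (j + 1) y := by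
    have h1 : ∀ᵐ y ∂ν, ∀ i, (S^[j] y) i = 0 → (c i : ℝ) ≤ f (S^[j] y) :=
      (S_mp.iterate j).quasiMeasurePreserving.ae f_ge
    filter_upwards [h1] with y hy
    have h0 : 0 ≤ Av (j + 1) y := by
      unfold Av
      exact mul_nonneg (by positivity) (Finset.sum_nonneg fun _ _ => f_nonneg _)
    by_cases hya : y ∈ anc i x
    · rw [indicator_of_mem hya]
      have h2 : (S^[j] y) i = 0 := by
        rw [S_iter, hya.2, ← hj]
        ring
      have h3 := hy i h2
      have h4 : f (S^[j] y) ≤ ∑ l ∈ Finset.range (j + 1), f (S^[l] y) :=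
        Finset.single_le_sum (f := fun l => f (S^[l] y)) (fun _ _ => f_nonneg _)
          (Finset.mem_range.2 (Nat.lt_succ_self j))
      unfold Av
      exact mul_le_mul_of_nonneg_left (h3.trans h4) hκ0.le
    · rw [indicator_of_notMem hya]
      exact h0
  have h5 : ∫ y in cell i x, (anc i x).indicator (fun _ => κ * c i) y ∂ν = pc i x * (κ * c i) := by
    rw [setIntegral_indicator (anc_meas i x), inter_eq_self_of_subset_right (anc_sub i x),
      setIntegral_const, anc_measure, smul_eq_mul]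
  have h6 : ∫ y in cell i x, (anc i x).indicator (fun _ => κ * c i) y ∂ν ≤
      ∫ y in cell i x, Av (j + 1) y ∂ν := by
    refine setIntegral_mono_ae ?_ (Av_int _).integrableOn hae
    exact ((integrable_const _).indicator (anc_meas i x)).integrableOn
  rw [h5] at h6
  refine le_trans ?_ h6
  rw [cell_measure]
  have h7 := (spec i).2.2.1 (x i)
  have h8 : ((i : ℝ) + 1) * ((j : ℝ) + 1) *
      (Finset.univ.filter (fun a => lab i a = lab i (x i))).card ≤ c i := by
    have : (((i + 1) * (lab i (x i) + 1) *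
      (Finset.univ.filter (fun a => lab i a = lab i (x i))).card : ℕ) : ℝ) ≤ c i := by
      exact_mod_cast h7
    push_cast at this
    exact this
  have h9 : ((i : ℝ) + 1) * (Finset.univ.filter (fun a => lab i a = lab i (x i))).card ≤ κ * c i := by
    rw [hκ, inv_mul_eq_div, le_div_iff₀ (by positivity)]
    push_cast
    linarith
  calc ((i : ℝ) + 1) * (pc i x * (Finset.univ.filter (fun a => lab i a = lab i (x i))).card)
      = pc i x * (((i : ℝ) + 1) * (Finset.univ.filter (fun a => lab i a = lab i (x i))).card) := by ring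
    _ ≤ pc i x * (κ * c i) := mul_le_mul_of_nonneg_left h9 (pc_pos i x).le

lemma cell_pos (i : ℕ) (x : Ω) : 0 < ν.real (cell i x) := by
  rw [cell_measure]
  apply mul_pos (pc_pos i x)
  have : (x i) ∈ Finset.univ.filter (fun a => lab i a = lab i (x i)) := by simp
  exact_mod_cast Finset.card_pos.2 ⟨_, this⟩

/-! ### Coding by sequences of natural numbers -/

/-- the coding -/
noncomputable def cod (x : Ω) : W := fun m => if m % 2 = 0 then lab (m / 2) (x (m / 2)) else (x (m / 2)).val

/-- the decoding -/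
noncomputable def dec (z : W) : Ω := fun i => (z (2 * i + 1) : ZMod (N i + 1))

lemma val_cast (x : Ω) {i j : ℕ} (h : j = i) : (((x j).val : ℕ) : ZMod (N i + 1)) = x i := by
  subst h
  exact ZMod.natCast_zmod_val _

lemma dec_cod (x : Ω) : dec (cod x) = x := by
  funext i
  unfold dec cod
  rw [if_neg (by omega)]
  exact val_cast x (by omega)

lemma cod_meas : Measurable cod := by
  refine measurable_pi_lambda _ fun m => ?_
  unfold cod
  by_cases h : m % 2 = 0
  · simp only [h, if_true]
    exact (measurable_of_finite (lab (m / 2))).comp (measurable_pi_apply (m / 2))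
  · simp only [h, if_false]
    exact (measurable_of_finite (fun a : ZMod (N (m / 2) + 1) => a.val)).comp
      (measurable_pi_apply (m / 2))

lemma dec_meas : Measurable dec := by
  refine measurable_pi_lambda _ fun i => ?_
  exact (measurable_of_countable (fun n : ℕ => (n : ZMod (N i + 1)))).comp
    (measurable_pi_apply (X := fun _ : ℕ => ℕ) (2 * i + 1))

lemma cod_cyl (i : ℕ) (x : Ω) : cod ⁻¹' (cyl (cod x) (2 * i + 1)) = cell i x := by
  ext y
  constructor
  · intro h
    have h' : ∀ m < 2 * i + 1, cod y m = cod x m := h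
    refine ⟨fun l hl => ?_, ?_⟩
    · have h1 := h' (2 * l + 1) (by omega)
      have h2 := congrFun (dec_cod y) l
      have h3 := congrFun (dec_cod x) l
      rw [← h2, ← h3]
      unfold dec
      rw [h1]
    · have h1 := h' (2 * i) (by omega)
      unfold cod at h1
      rw [if_pos (by omega), if_pos (by omega)] at h1
      have h2 : ∀ j, j = i → lab j (y j) = lab j (x j) → lab i (y i) = lab i (x i) := by
        intro j hj h0
        subst hj
        exact h0
      exact h2 _ (by omega) h1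
  · rintro ⟨h1, h2⟩ m hm
    unfold cod
    by_cases hmi : m / 2 < i
    · rw [h1 _ hmi]
    · have h3 : m / 2 = i := by omega
      have h4 : m % 2 = 0 := by omega
      rw [if_pos h4, if_pos h4]
      subst h3
      exact h2

noncomputable def μ : Measure W := ν.map cod

instance : IsProbabilityMeasure μ := Measure.isProbabilityMeasure_map cod_meas.aemeasurable

noncomputable def T (z : W) : W := cod (S (dec z))

noncomputable def F (z : W) : ℝ := f (dec z)

lemma T_cod (x : Ω) : T (cod x) = cod (S x) := by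
  unfold T
  rw [dec_cod]

lemma T_iter (k : ℕ) (x : Ω) : T^[k] (cod x) = cod (S^[k] x) := by
  induction k with
  | zero => rfl
  | succ k ih => rw [Function.iterate_succ_apply', ih, T_cod, Function.iterate_succ_apply']

lemma T_meas : Measurable T := cod_meas.comp (S_meas.comp dec_meas)

lemma T_mp : MeasurePreserving T μ μ := by
  refine ⟨T_meas, ?_⟩
  unfold μ
  rw [Measure.map_map T_meas cod_meas]
  have : T ∘ cod = cod ∘ S := by
    funext x
    exact T_cod x
  rw [this, ← Measure.map_map cod_meas S_meas, S_mp.map_eq]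

lemma F_meas : Measurable F := by
  unfold F f
  exact (G_meas.comp dec_meas).ennreal_toReal

lemma F_int : Integrable F μ := by
  unfold μ
  rw [integrable_map_measure F_meas.aestronglyMeasurable cod_meas.aemeasurable]
  have : F ∘ cod = f := by
    funext x
    show f (dec (cod x)) = f x
    rw [dec_cod]
  rw [this]
  exact f_int

lemma U_ge (i : ℕ) (x : Ω) :
    ((i : ℝ) + 1) ≤ U μ T F ((1 / 2) ^ (2 * i)) (lab i (x i) + 1) (cod x) := by
  unfold U
  rw [ball_pow]
  have h1 : μ.real (cyl (cod x) (2 * i + 1)) = ν.real (cell i x) := by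
    rw [measureReal_def, μ, Measure.map_apply cod_meas (cyl_meas _ _), cod_cyl, measureReal_def]
  have h2 : ∫ y in cyl (cod x) (2 * i + 1), ((lab i (x i) + 1 : ℕ) : ℝ)⁻¹ *
      ∑ j ∈ Finset.range (lab i (x i) + 1), F (T^[j] y) ∂μ =
      ∫ y in cell i x, Av (lab i (x i) + 1) y ∂ν := by
    have hm : Measurable fun y : W => ((lab i (x i) + 1 : ℕ) : ℝ)⁻¹ *
      ∑ j ∈ Finset.range (lab i (x i) + 1), F (T^[j] y) :=
      (Finset.measurable_sum _ fun j _ => F_meas.comp (T_meas.iterate j)).const_mul _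
    unfold μ
    rw [setIntegral_map (cyl_meas _ _) hm.aestronglyMeasurable cod_meas.aemeasurable, cod_cyl]
    refine integral_congr_ae (Eventually.of_forall fun y => ?_)
    unfold Av
    simp only [T_iter, F, dec_cod]
  rw [h1, h2, inv_mul_eq_div, le_div_iff₀ (cell_pos i x)]
  exact main_est i x

lemma range_meas : MeasurableSet (range cod) := by
  have : range cod = {z | cod (dec z) = z} := by
    ext z
    constructor
    · rintro ⟨x, rfl⟩
      show cod (dec (cod x)) = cod x
      rw [dec_cod]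
    · intro h
      exact ⟨dec z, h⟩
  rw [this]
  exact measurableSet_eq_fun (cod_meas.comp dec_meas) measurable_id

lemma HL : HLProp μ := by
  refine ⟨1, le_rfl, fun f hf ε hε => ?_⟩
  rw [one_mul]
  exact hardy_littlewood μ f hf ε hε

/-- There are a metric space with a Borel probability measure with the Hardy–Littlewood property,
a measure preserving map `T` and a nonnegative integrable function `f` such that at almost every
point `x`, for all `r₀ > 0` and `K` the numbers `U_{r,k} f(x)`, `0 < r < r₀`, `k ≥ K`, are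
unbounded above. -/
theorem result : ∃ (X : Type) (_ : MetricSpace X) (_ : MeasurableSpace X) (_ : BorelSpace X)
    (μ : Measure X) (_ : IsProbabilityMeasure μ) (T : X → X) (f : X → ℝ),
    HLProp μ ∧ MeasurePreserving T μ μ ∧ Integrable f μ ∧ (∀ x, 0 ≤ f x) ∧
    ∀ᵐ x ∂μ, ∀ (C : ℝ) (r₀ : ℝ) (K : ℕ), 0 < r₀ →
      ∃ r, 0 < r ∧ r < r₀ ∧ ∃ k, K ≤ k ∧ C ≤ U μ T f r k x := by
  refine ⟨W, inferInstance, inferInstance, inferInstance, μ, inferInstance, T, F, HL, T_mp, F_int,
    fun x => f_nonneg _, ?_⟩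
  filter_upwards [ae_map_mem_range cod range_meas ν] with z hz C r₀ K hr₀
  obtain ⟨x, rfl⟩ := hz
  obtain ⟨a, ha⟩ := exists_nat_ge C
  obtain ⟨b, hb⟩ := exists_pow_lt_of_lt_one hr₀ (show (1 / 2 : ℝ) < 1 by norm_num)
  set i := max K (max a b) with hi
  have h1 : K ≤ i := le_max_left _ _
  have h2 : a ≤ i := (le_max_left _ _).trans (le_max_right _ _)
  have h3 : b ≤ i := (le_max_right _ _).trans (le_max_right _ _)
  refine ⟨(1 / 2) ^ (2 * i), by positivity, ?_, lab i (x i) + 1, ?_, ?_⟩
  · refine lt_of_le_of_lt ?_ hb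
    exact pow_le_pow_of_le_one (by norm_num) (by norm_num) (by omega)
  · have := (spec i).2.1 (x i)
    omega
  · refine le_trans ?_ (U_ge i x)
    have : (a : ℝ) ≤ i := by exact_mod_cast h2
    linarith

end Pool.Agent.Results.MP_135240_an.DivergenceL1
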